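import Pool.Agent.V7H9.ML.Algo

/-!
# An algorithm for the minimum-length multiples of nonmonic irreducible polynomials

Let `P` be an irreducible polynomial in `ℤ[X]` of degree `d ≥ 1` whose leading coefficient is not `1` or `-1`.
If `F = G + X ^ N H` is a multiple of `P` and the gap between `G` and `X ^ N H` is larger than an explicit
bound (in terms of `P`, the degree of `H` and the size of the coefficients of `H`), then `H` is a multiple of
`P`: otherwise `R = P U + H V` for the resultant `R ≠ 0`, so `P S = X ^ N R + E` with `E` of small degree, and
one can divide by the prime factors of `R` one after the other, each time at the cost of `d` in the degree of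
`E`; at the end the leading coefficient of `P` divides `1`. Hence the exponents of a minimum-length multiple
without factor `X` have bounded gaps, counted from the top, so its degree is bounded, and the search is finite.
-/

set_option autoImplicit false

namespace Pool.Agent.Results.MP_e7878a_nt.AlgorithmH9

open Polynomial

/-- The length of an integral polynomial: the sum of the absolute values of its coefficients. -/
noncomputable def len (F : ℤ[X]) : ℕ := ∑ i ∈ F.support, (F.coeff i).natAbs

/-- The polynomial `l_0 + l_1 X + l_2 X ^ 2 + …` with the given list of coefficients. -/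
noncomputable def poly (l : List ℤ) : ℤ[X] := ∑ i ∈ Finset.range l.length, monomial i (l.getD i 0)

/-- `F` is a minimum-length multiple of `P`: a nonzero multiple `P T` of smallest length. -/
def IsMinimumLengthMultiple (P F : ℤ[X]) : Prop :=
  F ≠ 0 ∧ P ∣ F ∧ ∀ F' : ℤ[X], F' ≠ 0 → P ∣ F' → len F ≤ len F'

/-- The class `𝒞` of the question: the nonmonic irreducible polynomials of degree at least `1` all of whose
complex zeros lie in the closed unit disc. -/
def ClassC (P : ℤ[X]) : Prop :=
  Irreducible P ∧ 1 ≤ P.natDegree ∧ P.leadingCoeff ≠ 1 ∧ P.leadingCoeff ≠ -1 ∧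
    ∀ z : ℂ, aeval z P = 0 → ‖z‖ ≤ 1

/-- **There is an algorithm.** There is a computable (even primitive recursive) function `f` from lists of
integers to lists of integers such that for every list `l` of coefficients of a nonmonic irreducible polynomial
`P` of degree at least `1` (whatever the absolute values of its zeros, in particular for `P` in the class `𝒞`),
`f l` is the list of coefficients of a minimum-length multiple of `P`. -/
theorem result : ∃ f : List ℤ → List ℤ, Computable f ∧ Primrec f ∧
    (∀ l : List ℤ, ClassC (poly l) → IsMinimumLengthMultiple (poly l) (poly (f l))) ∧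
    ∀ l : List ℤ, Irreducible (poly l) → 1 ≤ (poly l).natDegree → (poly l).leadingCoeff ≠ 1 →
      (poly l).leadingCoeff ≠ -1 → IsMinimumLengthMultiple (poly l) (poly (f l)) := by
  have key : ∀ l : List ℤ, Irreducible (poly l) → 1 ≤ (poly l).natDegree → (poly l).leadingCoeff ≠ 1 →
      (poly l).leadingCoeff ≠ -1 →
        IsMinimumLengthMultiple (poly l) (poly (Pool.Agent.V7H9.ML.algo l)) := by
    intro l h1 h2 h3 h4
    have h5 : ¬ IsUnit (poly l).leadingCoeff := by
      rw [Int.isUnit_iff]
      push Not
      exact ⟨h3, h4⟩
    obtain ⟨T, hT, hT0, hmin⟩ := Pool.Agent.V7H9.ML.algo_spec l h1 h2 h5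
    have hT' : poly (Pool.Agent.V7H9.ML.algo l) = poly l * T := hT
    refine ⟨?_, ?_, ?_⟩
    · rw [hT']
      exact mul_ne_zero h1.ne_zero hT0
    · rw [hT']
      exact dvd_mul_right _ _
    · rintro F' hF' ⟨T', rfl⟩
      rw [hT']
      exact hmin T' (right_ne_zero_of_mul hF')
  exact ⟨Pool.Agent.V7H9.ML.algo, Pool.Agent.V7H9.ML.prim_algo.to_comp, Pool.Agent.V7H9.ML.prim_algo,
    fun l h => key l h.1 h.2.1 h.2.2.1 h.2.2.2.1, key⟩

end Pool.Agent.Results.MP_e7878a_nt.AlgorithmH9
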